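import Pool.Agent.H41.PRK.S5
import Pool.Agent.H77.T1.CT1K
import Pool.Agent.H71.T1.TWJK
import Pool.Agent.H81.TOW.IRS
import Pool.Agent.H30.T1.Loc

/-!
# PRK, CT1Y: orbits of pairs of matrices with a pattern
-/

set_option autoImplicit false
set_option linter.overlappingInstances false
set_option linter.unusedSectionVars false

namespace Pool.PRK

open Polynomial Matrix Pool.HYP Pool.TOW Pool.AVS Pool.T1 IsDedekindDomain Pool.T1.CT1K77

namespace Ct1y

section Loc

variable {R : Type} [CommRing R]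

theorem uns {n : ℕ} {P : Ideal R} {d c : R} {γ f : R[X]} {e : ZMod 2}
    {G S u : Matrix (Fin n) (Fin n) R} (hd : u.det = 1) (h : UnS n P d c γ f e G S) :
    UnS n P d c γ f e (uᵀ * G * u) (uᵀ * S * u) := by
  obtain ⟨a, p, h1, h2, h3, h4, h5, h6⟩ := h
  have hcong : ∀ A B : Matrix (Fin n) (Fin n) R,
      (∀ i j, (A - B) i j ∈ P) → ∀ i j, (uᵀ * A * u - uᵀ * B * u) i j ∈ P := by
    intro A B hAB i j
    have e1 : uᵀ * A * u - uᵀ * B * u = uᵀ * (A - B) * u := by
      rw [Matrix.mul_sub, Matrix.sub_mul]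
    rw [e1, Matrix.mul_apply]
    refine Ideal.sum_mem _ fun b _ => ?_
    refine Ideal.mul_mem_right _ _ ?_
    rw [Matrix.mul_apply]
    exact Ideal.sum_mem _ fun c _ => Ideal.mul_mem_left _ _ (hAB c b)
  have hc : ∀ B : Matrix (Fin n) (Fin n) R, (a * u)ᵀ * B * (a * u) = uᵀ * (aᵀ * B * a) * u := by
    intro B
    rw [Matrix.transpose_mul]
    simp only [Matrix.mul_assoc]
  refine ⟨a * u, p, by rwa [Matrix.det_mul, hd, mul_one], h2, h3, h4, ?_, ?_⟩
  · rw [hc]
    exact hcong _ _ h5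
  · rw [hc, ← Matrix.smul_mul, ← Matrix.mul_smul]
    exact hcong _ _ h6

theorem sha {A : Type} [CommRing A] {g : ℕ} {d c : A} {γ : A[X]}
    {G S u : Matrix (Fin (2 * g + 1)) (Fin (2 * g + 1)) A} (hu : IsUnit u.det)
    (h : ShA g d c γ G S) : ShA g d c γ (uᵀ * G * u) (uᵀ * S * u) := by
  obtain ⟨h1, h2, a, ha, hb⟩ := h
  have e1 : u * u⁻¹ = 1 := Matrix.mul_nonsing_inv u hu
  have e2 : (u⁻¹)ᵀ * uᵀ = 1 := by
    rw [← Matrix.transpose_mul, e1, Matrix.transpose_one]
  have hc : ∀ B : Matrix (Fin (2 * g + 1)) (Fin (2 * g + 1)) A,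
      (u⁻¹ * a)ᵀ * (uᵀ * B * u) * (u⁻¹ * a) = aᵀ * B * a := by
    intro B
    calc (u⁻¹ * a)ᵀ * (uᵀ * B * u) * (u⁻¹ * a) =
          aᵀ * (((u⁻¹)ᵀ * uᵀ) * B * (u * u⁻¹)) * a := by
          rw [Matrix.transpose_mul]
          simp only [Matrix.mul_assoc]
      _ = aᵀ * B * a := by rw [e1, e2, Matrix.one_mul, Matrix.mul_one]
  refine ⟨?_, ?_, u⁻¹ * a, ?_, ?_⟩
  · rw [Matrix.transpose_mul, Matrix.transpose_mul, Matrix.transpose_transpose, h1,
      Matrix.mul_assoc]
  · rw [Matrix.transpose_mul, Matrix.transpose_mul, Matrix.transpose_transpose, h2,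
      Matrix.mul_assoc]
  · rw [Matrix.det_mul]
    exact (Matrix.isUnit_nonsing_inv_det_iff.2 hu).mul ha
  · rw [hc, hc]
    exact hb

theorem ras {g : ℕ} {P : Ideal R} {d c : R} {γ : R[X]}
    {G S u : Matrix (Fin (2 * g + 1)) (Fin (2 * g + 1)) R} (hd : u.det = 1)
    (h : RaS g P d c γ G S) : RaS g P d c γ (uᵀ * G * u) (uᵀ * S * u) := by
  have hm : ∀ B : Matrix (Fin (2 * g + 1)) (Fin (2 * g + 1)) R,
      (uᵀ * B * u).map (Ideal.Quotient.mk (P ^ 3)) =
        (u.map (Ideal.Quotient.mk (P ^ 3)))ᵀ * B.map (Ideal.Quotient.mk (P ^ 3)) *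
          u.map (Ideal.Quotient.mk (P ^ 3)) := by
    intro B
    rw [Matrix.map_mul, Matrix.map_mul, Matrix.transpose_map]
  have hu : IsUnit (u.map (Ideal.Quotient.mk (P ^ 3))).det := by
    have h1 : (u.map (Ideal.Quotient.mk (P ^ 3))).det = Ideal.Quotient.mk (P ^ 3) u.det := by
      rw [RingHom.map_det]; rfl
    rw [h1, hd, map_one]
    exact isUnit_one
  unfold RaS at h ⊢
  rw [hm, hm]
  exact sha hu h

end Loc

section Act

variable {R : Type} [CommRing R] [IsDedekindDomain R] {K : Type} [Field K] [Algebra R K]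
  [IsFractionRing R K] {O : ValuationSubring K} {π : K}

/-- The action. -/
theorem act (hπ : π ≠ 0) {g : ℕ} {D : Dat R O} {h : ℕ} {y : HeightOneSpectrum R → Ty} {d : R}
    {E : ℕ} {e : Fin (2 * g + 1) → ℤ} {f : R[X]}
    {G S u : Matrix (Fin (2 * g + 1)) (Fin (2 * g + 1)) R} (hu : u ∈ UUK R O π e)
    (hG : PMY π g D h y d E e f G S) :
    PMY π g D h y d E e f (uᵀ * G * u) (uᵀ * S * u) := by
  obtain ⟨h1, h2, h3, h4, h5, h6, h7, h8, h9⟩ := hG
  have hd := uu_det hu
  have hd' : IsUnit u.det := by rw [hd]; exact isUnit_one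
  have hdeg := uu_lm hu
  refine ⟨?_, ?_, ?_, ?_, ?_, ?_, ?_, ?_, ?_⟩
  · rw [Matrix.transpose_mul, Matrix.transpose_mul, Matrix.transpose_transpose, h1,
      Matrix.mul_assoc]
  · rw [Matrix.transpose_mul, Matrix.transpose_mul, Matrix.transpose_transpose, h2,
      Matrix.mul_assoc]
  · refine lm_mm hπ _ _ e e e (lm_mm hπ _ _ e (fun a => -e a) e ?_ ?_) hdeg
    · intro i a
      rw [Matrix.transpose_apply, add_comm]
      exact hdeg a i
    · intro a b
      rw [neg_neg]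
      exact h3 a b
  · intro i j
    have h10 := lm_mm (O := O) hπ (uᵀ * S) u e (fun a => e a + h + E) (fun a => e a + h + E)
      (lm_mm (O := O) hπ _ _ e (fun a => -e a) (fun a => e a + h + E) ?_ ?_) ?_ i j
    · rwa [← add_assoc, ← add_assoc] at h10
    · intro i a
      rw [Matrix.transpose_apply, add_comm]
      exact hdeg a i
    · intro a b
      rw [neg_neg, ← add_assoc, ← add_assoc]
      exact h4 a b
    · intro a b
      rw [show -(e a + (h : ℤ) + (E : ℤ)) + (e b + h + E) = -e a + e b by ring]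
      exact hdeg a b
  · rw [CT1K77.det_conj, hd, one_pow, one_mul]
    exact h5
  · rw [pen_conj, CT1K77.det_conj (pen G S), Matrix.det_mul, Matrix.det_mul,
      Matrix.det_transpose, h6]
    have : (u.map C).det = C u.det := by
      rw [← RingHom.mapMatrix_apply, ← RingHom.map_det]
    rw [this, C_mul, C_mul]
    ring
  · intro P hP i j
    have h10 : algebraMap R K ((uᵀ * S * u) i j) / algebraMap R K d =
        ∑ b, (∑ c, algebraMap R K (uᵀ i c) * (algebraMap R K (S c b) / algebraMap R K d)) *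
          algebraMap R K (u b j) := by
      rw [Matrix.mul_apply, map_sum, Finset.sum_div]
      refine Finset.sum_congr rfl fun b _ => ?_
      rw [Matrix.mul_apply, map_mul, map_sum, mul_div_right_comm, Finset.sum_div]
      congr 1
      refine Finset.sum_congr rfl fun c _ => ?_
      rw [map_mul, mul_div_assoc]
    rw [h10]
    refine rp_sum _ _ fun b _ => rp_mul (rp_sum _ _ fun c _ => rp_mul (rp_alg _) ?_) (rp_alg _)
    exact h7 P hP c b
  · intro P hP
    exact ⟨fun h0 => uns hd ((h8 P hP).1 h0), fun h0 => ras hd ((h8 P hP).2 h0)⟩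
  · intro h0
    apply h9
    let _ : Invertible u := Matrix.invertibleOfIsUnitDet u hd'
    have htri : (u⁻¹).BlockTriangular id :=
      Matrix.blockTriangular_inv_of_blockTriangular (uu_tri hu)
    have hinv : ∀ A : Matrix (Fin (2 * g + 1)) (Fin (2 * g + 1)) R,
        (u⁻¹)ᵀ * (uᵀ * A * u) * u⁻¹ = A := by
      intro A
      have e1 : (u⁻¹)ᵀ * uᵀ = 1 := by
        rw [← Matrix.transpose_mul, Matrix.mul_nonsing_inv u hd', Matrix.transpose_one]
      have e2 : u * u⁻¹ = 1 := Matrix.mul_nonsing_inv u hd'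
      calc (u⁻¹)ᵀ * (uᵀ * A * u) * u⁻¹ = ((u⁻¹)ᵀ * uᵀ) * A * (u * u⁻¹) := by
            simp only [Matrix.mul_assoc]
        _ = A := by rw [e1, e2, Matrix.one_mul, Matrix.mul_one]
    intro i j hi hj
    constructor
    · rw [← hinv G]
      exact tri_zero _ _ htri (fun i j hi hj => (h0 i j hi hj).1) i j hi hj
    · rw [← hinv S]
      exact tri_zero _ _ htri (fun i j hi hj => (h0 i j hi hj).2) i j hi hj

end Act

end Ct1y

/-- CT1Y: orbits of pairs of matrices with a pattern. -/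
theorem ct1y : CT1YStmt := by
  classical
  intro R _ _ K _ _ _ O π hR g D h y d E e _ _ hd0 hirr _ hPP
  rcases (PFY π g D h y d E e).finite_or_infinite with hPF | hPF
  swap
  · rw [hPF.ncard, zero_mul]; exact Nat.zero_le _
  rcases (UUK R O π e).finite_or_infinite with hUU | hUU
  swap
  · rw [hUU.ncard, mul_zero]; exact Nat.zero_le _
  rw [← Set.ncard_prod]
  choose! G S hGS using fun (f : R[X]) (hf : f ∈ PFY π g D h y d E e) => hf.2
  have hirr' : ∀ f ∈ Fam π g D h, Irreducible (fk K (f.scaleRoots d)) := by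
    intro f hf
    have h1 : fk K (f.scaleRoots d) = (fk K f).scaleRoots (algebraMap R K d) := by
      refine map_scaleRoots f d _ ?_
      rw [hf.1.1.leadingCoeff, map_one]
      exact one_ne_zero
    rw [h1]
    exact Pool.TOW.UD.irr_scaleRoots (hf.1.1.map _) (alg_ne hd0) (hirr f hf)
  refine Set.ncard_le_ncard_of_injOn
    (fun x : R[X] × Matrix (Fin (2 * g + 1)) (Fin (2 * g + 1)) R =>
      (x.2ᵀ * G x.1 * x.2, x.2ᵀ * S x.1 * x.2)) ?_ ?_ hPP
  · intro x hx
    exact ⟨x.1, hx.1.1, Ct1y.act hR.pi_ne hx.2 (hGS x.1 hx.1)⟩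
  · intro z hz x hx hΦ
    have e1 : z.2ᵀ * G z.1 * z.2 = x.2ᵀ * G x.1 * x.2 := congrArg Prod.fst hΦ
    have e2 : z.2ᵀ * S z.1 * z.2 = x.2ᵀ * S x.1 * x.2 := congrArg Prod.snd hΦ
    have hpx := Ct1y.act hR.pi_ne hx.2 (hGS x.1 hx.1)
    have hpy := Ct1y.act hR.pi_ne hz.2 (hGS z.1 hz.1)
    have hf : z.1 = x.1 := by
      have h1 := hpx.2.2.2.2.2.1
      have h2 := hpy.2.2.2.2.2.1
      rw [e1, e2, h1] at h2
      have h3 : (C (x.2ᵀ * G x.1 * x.2).det : R[X]) ≠ 0 := C_ne_zero.2 hpx.2.2.2.2.1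
      exact (twjk R d hd0 (mul_left_cancel₀ h3 h2)).symm
    rw [hf] at e1 e2
    obtain ⟨k1, k2, _, _, k5, k6, _⟩ := hGS x.1 hx.1
    have hdu : IsUnit x.2.det := by rw [uu_det hx.2]; exact isUnit_one
    rcases two (IsFractionRing.injective R K) k1 k2 k5 k6 (hirr' x.1 hx.1.1) hdu e1 e2 with
      h4 | h4
    · exact Prod.ext hf h4
    · exfalso
      have h5 : z.2 0 0 = -x.2 0 0 := by rw [h4, Matrix.neg_apply]
      rw [hz.2.1 0, hx.2.1 0] at h5
      apply hR.two
      have h6 : (2 : R) = 0 := by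
        have : (1 : R) + 1 = 0 := by
          nth_rewrite 1 [h5]
          exact neg_add_cancel 1
        rwa [one_add_one_eq_two] at this
      rw [← map_ofNat (algebraMap R K) 2, h6, map_zero]

end Pool.PRK
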