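import Pool.Agent.H79.PRK.S1

/-!
# PRK, TAUK: `τ` for a product, modulo an ideal
-/

set_option autoImplicit false

namespace Pool.PRK

open Polynomial Pool.HYP Pool.TOW Pool.AVS Pool.T1

namespace Tauk

section

variable {A : Type} [CommRing A] [Nontrivial A]

theorem deg_mul {γ : A[X]} (c : A) (hγ : γ.Monic) {n : ℕ} (hn : γ.natDegree = n) :
    ((X - C c) * γ).natDegree = n + 1 := by
  rw [Polynomial.Monic.natDegree_mul (monic_X_sub_C c) hγ, natDegree_X_sub_C, hn, add_comm]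

theorem deg_mul' {γ : A[X]} (c : A) (hγ : γ.Monic) {n : ℕ} (hn : γ.natDegree = n) :
    ((X - C c) * γ).degree = ((n + 1 : ℕ) : WithBot ℕ) := by
  rw [degree_eq_natDegree ((monic_X_sub_C c).mul hγ).ne_zero, deg_mul c hγ hn]

theorem tau_lin {γ : A[X]} (c : A) (hγ : γ.Monic) {n : ℕ} (h1 : 1 ≤ n) (hn : γ.natDegree = n)
    (h : A[X]) : tau ((X - C c) * γ) ((X - C c) * h) = tau γ h := by
  have hF : ((X - C c) * γ).Monic := (monic_X_sub_C c).mul hγ
  have hr : (h %ₘ γ).degree < n := by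
    have h2 := degree_modByMonic_lt h hγ
    rwa [degree_eq_natDegree hγ.ne_zero, hn] at h2
  have hu : ((X - C c) * h) %ₘ ((X - C c) * γ) = (X - C c) * (h %ₘ γ) := by
    refine (div_modByMonic_unique (h /ₘ γ) ((X - C c) * (h %ₘ γ)) hF ⟨?_, ?_⟩).2
    · have h2 := modByMonic_add_div h γ
      calc (X - C c) * (h %ₘ γ) + (X - C c) * γ * (h /ₘ γ) =
          (X - C c) * (h %ₘ γ + γ * (h /ₘ γ)) := by ring
        _ = (X - C c) * h := by rw [h2]
    · rw [deg_mul' c hγ hn]
      refine (degree_mul_le _ _).trans_lt ?_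
      rw [degree_X_sub_C, add_comm]
      have h2 : (h %ₘ γ).degree + 1 < (n : WithBot ℕ) + 1 := by
        exact WithBot.add_lt_add_right (by decide) hr
      exact_mod_cast h2
  have hc : (h %ₘ γ).coeff n = 0 := coeff_eq_zero_of_degree_lt hr
  rw [tau, tau, hu, deg_mul c hγ hn, hn, Nat.add_sub_cancel, sub_mul, coeff_sub, coeff_C_mul, hc,
    mul_zero, sub_zero]
  obtain ⟨m, rfl⟩ : ∃ m, n = m + 1 := ⟨n - 1, by omega⟩
  rw [coeff_X_mul, Nat.add_sub_cancel]

theorem tau_gam {γ : A[X]} (c : A) (hγ : γ.Monic) {n : ℕ} (hn : γ.natDegree = n)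
    (h : A[X]) : tau ((X - C c) * γ) (γ * h) = h.eval c := by
  have hF : ((X - C c) * γ).Monic := (monic_X_sub_C c).mul hγ
  have hu : (γ * h) %ₘ ((X - C c) * γ) = γ * C (h.eval c) := by
    refine (div_modByMonic_unique (h /ₘ (X - C c)) (γ * C (h.eval c)) hF ⟨?_, ?_⟩).2
    · have h2 := modByMonic_add_div h (X - C c)
      rw [modByMonic_X_sub_C_eq_C_eval] at h2
      calc γ * C (h.eval c) + (X - C c) * γ * (h /ₘ (X - C c)) =
          γ * (C (h.eval c) + (X - C c) * (h /ₘ (X - C c))) := by ring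
        _ = γ * h := by rw [h2]
    · rw [deg_mul' c hγ hn]
      have h3 : ((n : ℕ) : WithBot ℕ) < ((n + 1 : ℕ) : WithBot ℕ) := by
        exact_mod_cast Nat.lt_succ_self n
      refine lt_of_le_of_lt (degree_le_of_natDegree_le ?_) h3
      refine natDegree_mul_le.trans ?_
      rw [hn, natDegree_C, add_zero]
  rw [tau, hu, deg_mul c hγ hn, Nat.add_sub_cancel, coeff_mul_C, ← hn, hγ.coeff_natDegree,
    one_mul]

end

theorem tau_mk {R : Type} [CommRing R] (I : Ideal R) (hI : I ≠ ⊤) {f : R[X]} (hf : f.Monic)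
    (p : R[X]) : Ideal.Quotient.mk I (tau f p) =
      tau (f.map (Ideal.Quotient.mk I)) (p.map (Ideal.Quotient.mk I)) := by
  have : Nontrivial (R ⧸ I) := Ideal.Quotient.nontrivial_iff.2 hI
  rw [tau, tau, ← coeff_map, map_modByMonic _ hf, hf.natDegree_map]

end Tauk

open Tauk in
/-- TAUK. -/
theorem tauk : TAUKStmt := by
  intro R _ I c γ f g hg hf hγ hd hfg h
  by_cases hI : I = ⊤
  · rw [hI]
    exact ⟨Submodule.mem_top, Submodule.mem_top⟩
  have : Nontrivial (R ⧸ I) := Ideal.Quotient.nontrivial_iff.2 hI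
  have hγ' : (γ.map (Ideal.Quotient.mk I)).Monic := hγ.map _
  have hd' : (γ.map (Ideal.Quotient.mk I)).natDegree = 2 * g := by
    rw [hγ.natDegree_map, hd]
  have hfm : f.map (Ideal.Quotient.mk I) =
      (X - C (Ideal.Quotient.mk I c)) * γ.map (Ideal.Quotient.mk I) := by
    have h1 : (f - (X - C c) * γ).map (Ideal.Quotient.mk I) = 0 := by
      ext i
      rw [coeff_map, coeff_zero]
      exact Ideal.Quotient.eq_zero_iff_mem.2 (hfg i)
    rw [Polynomial.map_sub, Polynomial.map_mul, Polynomial.map_sub, map_X, map_C,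
      sub_eq_zero] at h1
    exact h1
  constructor
  · rw [← Ideal.Quotient.eq_zero_iff_mem, map_sub, tau_mk I hI hf, tau_mk I hI hγ, hfm,
      Polynomial.map_mul, Polynomial.map_sub, map_X, map_C,
      tau_lin _ hγ' (by omega) hd', sub_self]
  · rw [← Ideal.Quotient.eq_zero_iff_mem, map_sub, tau_mk I hI hf, hfm, Polynomial.map_mul,
      tau_gam _ hγ' hd', eval_map_apply, sub_self]

end Pool.PRK
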